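import Pool.Agent.LengthSpec.Main

/-!
# The length-spectrum metric is not coarsely a length metric: estimates
-/

set_option autoImplicit false

open UpperHalfPlane MeasureTheory Set Finset
open scoped MatrixGroups Manifold ENNReal Topology

namespace Pool.Agent.Y117.LS

open Pool.Agent.LengthSpec

/-- coarsening of chains -/
theorem coarsen {r : ℝ} (hr : 1 ≤ r) (δ : ℕ → ℝ) (T : ℕ → ℕ → ℝ) (N : ℕ) (E : ℝ) (hE : 0 ≤ E)
    (hδ0 : ∀ i, i < N → 0 ≤ δ i) (hδ1 : ∀ i, i < N → δ i ≤ r)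
    (hT : ∀ a b c, a ≤ b → b ≤ c → c ≤ N → T a c ≤ T a b + T b c)
    (hH : ∀ a b, a ≤ b → b ≤ N → ∑ i ∈ Finset.Ico a b, δ i ≤ r → T a b ≤ E) :
    ∀ k a, a ≤ N → N - a ≤ k → T a N ≤ (2 * ∑ i ∈ Finset.Ico a N, δ i + 1) * E := by
  intro k
  induction k with
  | zero =>
    intro a ha hk
    have : a = N := by omega
    subst this
    have h1 := hH a a le_rfl le_rfl (by simp; linarith)
    simpa using h1
  | succ k ih =>
    intro a ha hk
    by_cases hs : ∑ i ∈ Finset.Ico a N, δ i ≤ r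
    · have h1 := hH a N ha le_rfl hs
      have h0 : 0 ≤ ∑ i ∈ Finset.Ico a N, δ i :=
        Finset.sum_nonneg fun i hi => hδ0 i (Finset.mem_Ico.1 hi).2
      nlinarith
    · have hex : ∃ b, a ≤ b ∧ b ≤ N ∧ r < ∑ i ∈ Finset.Ico a b, δ i := ⟨N, ha, le_rfl, not_le.1 hs⟩
      classical
      obtain ⟨hb1, hb2, hb3⟩ := Nat.find_spec hex
      set b := Nat.find hex with hb
      have hab : a < b := by
        rcases Nat.lt_or_ge a b with h | h
        · exact h
        · exfalso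
          rw [Finset.Ico_eq_empty_of_le h, Finset.sum_empty] at hb3
          linarith
      have hmin : ∑ i ∈ Finset.Ico a (b - 1), δ i ≤ r := by
        by_contra hcon
        exact Nat.find_min hex (m := b - 1) (by omega) ⟨by omega, by omega, not_le.1 hcon⟩
      have h1 := hH a (b - 1) (by omega) (by omega) hmin
      have h2 : T (b - 1) b ≤ E := by
        refine hH (b - 1) b (by omega) hb2 ?_
        have : Finset.Ico (b - 1) b = {b - 1} := by
          ext i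
          simp only [Finset.mem_Ico, Finset.mem_singleton]
          omega
        rw [this, Finset.sum_singleton]
        exact hδ1 _ (by omega)
      have h3 := ih b hb2 (by omega)
      have h4 : ∑ i ∈ Finset.Ico a b, δ i + ∑ i ∈ Finset.Ico b N, δ i =
          ∑ i ∈ Finset.Ico a N, δ i := Finset.sum_Ico_consecutive _ hb1 hb2
      have h5 := hT a (b - 1) b (by omega) (by omega) hb2
      have h6 := hT a b N hb1 hb2 le_rfl
      nlinarith

/-- decomposition of a chain of small steps into few blocks of size at most `s` -/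
theorem blocks {s ε : ℝ} (hε : 0 ≤ ε) (hs : ε < s) (δ : ℕ → ℝ) (N : ℕ)
    (hδ0 : ∀ i, i < N → 0 ≤ δ i) (hδ1 : ∀ i, i < N → δ i ≤ ε) :
    ∀ k a, a ≤ N → N - a ≤ k → ∃ (m : ℕ) (c : ℕ → ℕ), c 0 = a ∧ c m = N ∧
      (∀ j, j < m → c j ≤ c (j + 1) ∧ c (j + 1) ≤ N ∧
        ∑ i ∈ Finset.Ico (c j) (c (j + 1)), δ i ≤ s) ∧
      (m : ℝ) ≤ (∑ i ∈ Finset.Ico a N, δ i) / (s - ε) + 1 := by
  intro k
  have hse : 0 < s - ε := by linarith
  induction k with
  | zero =>
    intro a ha hk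
    have : a = N := by omega
    subst this
    exact ⟨0, fun _ => a, rfl, rfl, fun j hj => absurd hj (Nat.not_lt_zero j), by simp⟩
  | succ k ih =>
    intro a ha hk
    by_cases hs' : ∑ i ∈ Finset.Ico a N, δ i ≤ s
    · have h0 : 0 ≤ ∑ i ∈ Finset.Ico a N, δ i :=
        Finset.sum_nonneg fun i hi => hδ0 i (Finset.mem_Ico.1 hi).2
      refine ⟨1, fun j => if j = 0 then a else N, by simp, by simp, ?_, ?_⟩
      · intro j hj
        have : j = 0 := by omega
        subst this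
        simp only [if_true, zero_add, one_ne_zero, if_false]
        exact ⟨ha, le_rfl, hs'⟩
      · have : 0 ≤ (∑ i ∈ Finset.Ico a N, δ i) / (s - ε) := by positivity
        push_cast
        linarith
    · have hex : ∃ b, a ≤ b ∧ b ≤ N ∧ s < ∑ i ∈ Finset.Ico a b, δ i :=
        ⟨N, ha, le_rfl, not_le.1 hs'⟩
      classical
      obtain ⟨hb1, hb2, hb3⟩ := Nat.find_spec hex
      set b := Nat.find hex with hb
      have hab : a < b := by
        rcases Nat.lt_or_ge a b with h | h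
        · exact h
        · exfalso
          rw [Finset.Ico_eq_empty_of_le h, Finset.sum_empty] at hb3
          linarith
      have hmin : ∑ i ∈ Finset.Ico a (b - 1), δ i ≤ s := by
        by_contra hcon
        exact Nat.find_min hex (m := b - 1) (by omega) ⟨by omega, by omega, not_le.1 hcon⟩
      have hsp : ∑ i ∈ Finset.Ico a (b - 1), δ i + δ (b - 1) = ∑ i ∈ Finset.Ico a b, δ i := by
        rw [← Finset.sum_Ico_succ_top (by omega : a ≤ b - 1), Nat.sub_add_cancel (by omega)]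
      have hbig : s - ε ≤ ∑ i ∈ Finset.Ico a (b - 1), δ i := by
        have := hδ1 (b - 1) (by omega)
        linarith
      have hab' : a < b - 1 := by
        rcases Nat.lt_or_ge a (b - 1) with h | h
        · exact h
        · exfalso
          rw [Finset.Ico_eq_empty_of_le h, Finset.sum_empty] at hbig
          linarith
      obtain ⟨m, c, hc0, hcm, hcj, hm⟩ := ih (b - 1) (by omega) (by omega)
      refine ⟨m + 1, fun j => Nat.casesOn j a c, rfl, hcm, ?_, ?_⟩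
      · intro j hj
        cases j with
        | zero =>
          show a ≤ c 0 ∧ c 0 ≤ N ∧ ∑ i ∈ Finset.Ico a (c 0), δ i ≤ s
          rw [hc0]
          exact ⟨by omega, by omega, hmin⟩
        | succ j => exact hcj j (by omega)
      · have h4 : ∑ i ∈ Finset.Ico a (b - 1), δ i + ∑ i ∈ Finset.Ico (b - 1) N, δ i =
            ∑ i ∈ Finset.Ico a N, δ i := Finset.sum_Ico_consecutive _ (by omega) (by omega)
        have h5 : 1 ≤ (∑ i ∈ Finset.Ico a (b - 1), δ i) / (s - ε) := by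
          rw [le_div_iff₀ hse]; linarith
        rw [← h4, add_div]
        push_cast
        linarith

/-- the logarithm is smaller than every power -/
theorem arsinh_le_rpow {η x : ℝ} (hη : 0 < η) (hη1 : η ≤ 1) (hx : 0 ≤ x) :
    Real.arsinh x ≤ (1 + (2 * x) ^ η) / η := by
  have h1 : √(1 + x ^ 2) ≤ 1 + x := by
    rw [Real.sqrt_le_left (by positivity)]
    nlinarith
  have h3 : 0 < x + √(1 + x ^ 2) := by positivity
  have h4 : Real.arsinh x ≤ Real.log (1 + 2 * x) := by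
    rw [Real.arsinh]
    exact Real.log_le_log h3 (by linarith)
  have h5 : Real.log (1 + 2 * x) ≤ (1 + 2 * x) ^ η / η := Real.log_le_rpow_div (by positivity) hη
  have h6 : (1 + 2 * x) ^ η ≤ 1 + (2 * x) ^ η := by
    have h := Real.rpow_add_le_add_rpow (p := η) (a := 1) (b := 2 * x) zero_le_one (by positivity)
      hη.le hη1
    simpa using h
  calc Real.arsinh x ≤ (1 + 2 * x) ^ η / η := h4.trans h5
    _ ≤ (1 + (2 * x) ^ η) / η := by gcongr

/-- numerical bound for the step -/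
theorem step_bound {η A e : ℝ} (hη : 0 < η) (hη1 : η ≤ 1) (hA : 0 ≤ A) (he : 1 ≤ e) :
    ∃ K : ℝ, 0 ≤ K ∧ ∀ ℓ ℓ' c c' : ℝ, 0 < ℓ → 0 < ℓ' → ℓ ≤ e * ℓ' →
      c ≤ e * (4 * Real.arsinh ((A + 1) / ℓ) + 2 * ℓ) →
      c' ≤ 4 * Real.arsinh ((A + 1) / ℓ') + 2 * ℓ' →
      (c + ℓ') / ℓ' + (c' + ℓ') / ℓ' + 2 ≤ K * (1 + ℓ ^ (-(1 + η) : ℝ)) := by
  set B := A + 1 with hB
  have hB1 : 1 ≤ B := by linarith
  have he0 : 0 < e := by linarith
  set b := (2 * (e * B)) ^ η with hb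
  have hb0 : 0 ≤ b := by positivity
  refine ⟨(4 * e ^ 2 + 4 * e) * (1 + b) / η + 2 * e ^ 2 + 6, by positivity, ?_⟩
  intro ℓ ℓ' c c' hℓ hℓ' h2 hc hc'
  have inv' : 1 / ℓ' ≤ e / ℓ := by
    rw [div_le_div_iff₀ hℓ' hℓ]; linarith
  set s := 1 / ℓ with hs
  have hs0 : 0 < s := by positivity
  set T := (1 + (2 * (e * B / ℓ)) ^ η) / η with hT
  have hT0 : 0 ≤ T := by positivity
  have a1 : Real.arsinh (B / ℓ) ≤ T := by
    refine (Real.arsinh_le_arsinh.mpr ?_).trans (arsinh_le_rpow hη hη1 (by positivity))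
    have : B ≤ e * B := by nlinarith
    gcongr
  have a2 : Real.arsinh (B / ℓ') ≤ T := by
    refine (Real.arsinh_le_arsinh.mpr ?_).trans (arsinh_le_rpow hη hη1 (by positivity))
    have h1 : B / ℓ' = B * (1 / ℓ') := by ring
    rw [h1]
    calc B * (1 / ℓ') ≤ B * (e / ℓ) := by gcongr
      _ = e * B / ℓ := by ring
  have b1 : c / ℓ' ≤ 4 * e ^ 2 * (T * s) + 2 * e ^ 2 := by
    have h1 : c / ℓ' = c * (1 / ℓ') := by ring
    have h3 : c ≤ e * (4 * T + 2 * ℓ) := hc.trans (by gcongr)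
    have h4 : 0 ≤ e * (4 * T + 2 * ℓ) := by positivity
    calc c / ℓ' = c * (1 / ℓ') := h1
      _ ≤ e * (4 * T + 2 * ℓ) * (1 / ℓ') := by gcongr
      _ ≤ e * (4 * T + 2 * ℓ) * (e / ℓ) := by gcongr
      _ = 4 * e ^ 2 * (T * s) + 2 * e ^ 2 := by rw [hs]; field_simp
  have b2 : c' / ℓ' ≤ 4 * e * (T * s) + 2 := by
    have h3 : c' ≤ 4 * T + 2 * ℓ' := hc'.trans (by gcongr)
    calc c' / ℓ' ≤ (4 * T + 2 * ℓ') / ℓ' := by gcongr
      _ = 4 * T * (1 / ℓ') + 2 := by field_simp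
      _ ≤ 4 * T * (e / ℓ) + 2 := by gcongr
      _ = 4 * e * (T * s) + 2 := by rw [hs]; ring
  have b3 : (c + ℓ') / ℓ' + (c' + ℓ') / ℓ' + 2 = c / ℓ' + c' / ℓ' + 4 := by
    field_simp
    ring
  have hpow : (2 * (e * B / ℓ)) ^ η * s = b * ℓ ^ (-(1 + η) : ℝ) := by
    have h1 : 2 * (e * B / ℓ) = 2 * (e * B) * ℓ⁻¹ := by ring
    have h3 : ℓ ^ (-(1 + η) : ℝ) = (ℓ⁻¹) ^ η * ℓ⁻¹ := by
      rw [Real.rpow_neg hℓ.le, add_comm, Real.rpow_add hℓ, Real.rpow_one, mul_inv,
        Real.inv_rpow hℓ.le]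
    rw [h1, Real.mul_rpow (by positivity) (by positivity), h3, hs, one_div]
    ring
  have hs1 : s ≤ 1 + ℓ ^ (-(1 + η) : ℝ) := by
    rcases le_total 1 ℓ with h | h
    · have h1 : s ≤ 1 := by rw [hs, div_le_one hℓ]; exact h
      have h3 : 0 ≤ ℓ ^ (-(1 + η) : ℝ) := by positivity
      linarith
    · have h1 : s = ℓ ^ (-(1 : ℝ)) := by rw [hs, Real.rpow_neg_one, one_div]
      have h3 : ℓ ^ (-(1 : ℝ)) ≤ ℓ ^ (-(1 + η) : ℝ) :=
        Real.rpow_le_rpow_of_exponent_ge hℓ h (by linarith)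
      linarith
  have hTs : T * s ≤ (1 + b) / η * (1 + ℓ ^ (-(1 + η) : ℝ)) := by
    have h1 : T * s = (s + b * ℓ ^ (-(1 + η) : ℝ)) / η := by
      rw [hT, ← hpow]; ring
    rw [h1]
    have h3 : 0 ≤ ℓ ^ (-(1 + η) : ℝ) := by positivity
    have h4 : s + b * ℓ ^ (-(1 + η) : ℝ) ≤ (1 + b) * (1 + ℓ ^ (-(1 + η) : ℝ)) := by nlinarith
    calc (s + b * ℓ ^ (-(1 + η) : ℝ)) / η ≤ ((1 + b) * (1 + ℓ ^ (-(1 + η) : ℝ))) / η := by gcongr
      _ = _ := by ring
  rw [b3]
  have h7 : 0 ≤ ℓ ^ (-(1 + η) : ℝ) := by positivity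
  have h8 : (4 * e ^ 2 + 4 * e) * (T * s) ≤
      (4 * e ^ 2 + 4 * e) * ((1 + b) / η * (1 + ℓ ^ (-(1 + η) : ℝ))) := by gcongr
  have h9 : (4 * e ^ 2 + 4 * e) * ((1 + b) / η * (1 + ℓ ^ (-(1 + η) : ℝ))) =
      (4 * e ^ 2 + 4 * e) * (1 + b) / η * (1 + ℓ ^ (-(1 + η) : ℝ)) := by ring
  have h10 : 0 ≤ (2 * e ^ 2 + 6) * ℓ ^ (-(1 + η) : ℝ) := by positivity
  nlinarith

end Pool.Agent.Y117.LS
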