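import Pool.Agent.Y117.LS.Coarse

/-!
# The length-spectrum metric is not coarsely a length metric: the real analysis part
-/

set_option autoImplicit false

open MeasureTheory Set Finset
open scoped ENNReal Topology

namespace Pool.Agent.Y117.LS

open Pool.Agent.LengthSpec

/-- the growth of the bound is smaller than linear -/
theorem growth {C a b K L θ : ℝ} (hC : 1 ≤ C) (ha : 0 ≤ a) (hb : 0 ≤ b) (hK : 0 ≤ K) (hL : 0 ≤ L)
    (hθ0 : 0 ≤ θ) (hθ : θ < 1) :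
    ∃ n : ℕ, 1 ≤ n ∧ C + (a * Real.log (C * n) + b) * (K * (1 + L * (C * n) ^ θ)) < n := by
  set ε := (1 - θ) / 2 with hε
  have hε0 : 0 < ε := by rw [hε]; linarith
  set M := C + (a / ε + b) * (K * (1 + L)) with hM
  have hM0 : 0 ≤ M := by positivity
  have h1 := tendsto_rpow_atTop hε0
  obtain ⟨y0, hy0⟩ := (Filter.eventually_atTop.1 (h1.eventually_gt_atTop (M * C)))
  obtain ⟨n, hn⟩ := exists_nat_gt (max y0 1)
  have hn1 : (1 : ℝ) < n := lt_of_le_of_lt (le_max_right _ _) hn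
  have hny : y0 < n := lt_of_le_of_lt (le_max_left _ _) hn
  refine ⟨n, by exact_mod_cast hn1.le, ?_⟩
  set y := C * n with hy
  have hy1 : 1 ≤ y := by nlinarith
  have hyy : y0 ≤ y := by nlinarith
  have h2 := hy0 y hyy
  have hyε : 1 ≤ y ^ ε := Real.one_le_rpow hy1 hε0.le
  have hyθ : 1 ≤ y ^ θ := Real.one_le_rpow hy1 hθ0
  have h3 : a * Real.log y + b ≤ (a / ε + b) * y ^ ε := by
    have h4 := Real.log_le_rpow_div (by linarith : (0 : ℝ) ≤ y) hε0
    have h5 : a * Real.log y ≤ a * (y ^ ε / ε) := by gcongr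
    have h6 : b ≤ b * y ^ ε := by nlinarith
    calc a * Real.log y + b ≤ a * (y ^ ε / ε) + b * y ^ ε := add_le_add h5 h6
      _ = (a / ε + b) * y ^ ε := by ring
  have h7 : K * (1 + L * y ^ θ) ≤ K * (1 + L) * y ^ θ := by
    have : 1 + L * y ^ θ ≤ (1 + L) * y ^ θ := by nlinarith
    calc K * (1 + L * y ^ θ) ≤ K * ((1 + L) * y ^ θ) := by gcongr
      _ = _ := by ring
  have h8 : y ^ ε * y ^ θ * y ^ ε = y := by
    rw [← Real.rpow_add (by linarith), ← Real.rpow_add (by linarith)]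
    have : ε + θ + ε = 1 := by rw [hε]; ring
    rw [this, Real.rpow_one]
  have h9 : C + (a * Real.log y + b) * (K * (1 + L * y ^ θ)) ≤ M * (y ^ ε * y ^ θ) := by
    have h10 : 1 ≤ y ^ ε * y ^ θ := one_le_mul_of_one_le_of_one_le hyε hyθ
    have h11 : (a * Real.log y + b) * (K * (1 + L * y ^ θ)) ≤
        ((a / ε + b) * y ^ ε) * (K * (1 + L) * y ^ θ) := by
      apply mul_le_mul h3 h7
      · positivity
      · positivity
    calc C + (a * Real.log y + b) * (K * (1 + L * y ^ θ))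
        ≤ C * (y ^ ε * y ^ θ) + ((a / ε + b) * y ^ ε) * (K * (1 + L) * y ^ θ) :=
          add_le_add (by nlinarith) h11
      _ = M * (y ^ ε * y ^ θ) := by rw [hM]; ring
  have hC0 : 0 < C := by linarith
  have h12 : M * (y ^ ε * y ^ θ) * C < y := by
    have h13 : 0 < y ^ ε * y ^ θ := by positivity
    calc M * (y ^ ε * y ^ θ) * C = (M * C) * (y ^ ε * y ^ θ) := by ring
      _ < y ^ ε * (y ^ ε * y ^ θ) := by gcongr
      _ = y ^ ε * y ^ θ * y ^ ε := by ring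
      _ = y := h8
  have h14 : M * (y ^ ε * y ^ θ) < n := by
    have : M * (y ^ ε * y ^ θ) * C < n * C := by rw [mul_comm (n : ℝ) C]; exact h12
    exact lt_of_mul_lt_mul_right this hC0.le
  linarith

/-- short chains are impossible -/
theorem coarse_end {M : Type*} (d : M → M → ℝ≥0∞) (X : M) (Y : ℕ → M) (ℓ : M → ℝ)
    (C r : ℝ) (hC : 1 ≤ C) (hr : 1 ≤ r) (tws : M → M → ℝ)
    (hd0 : ∀ a, d a a = 0) (hdtri : ∀ a b c, d a c ≤ d a b + d b c)
    (hXY : ∀ n : ℕ, 1 ≤ n → d X (Y n) ≤ ENNReal.ofReal (Real.log (C * n)))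
    (hpos : ∀ Z, 0 < ℓ Z)
    (hℓ : ∀ Z Z', ENNReal.ofReal |Real.log (ℓ Z') - Real.log (ℓ Z)| ≤ d Z Z')
    (hℓY : ∀ n, ℓ (Y n) = ℓ X)
    (htri : ∀ Z₁ Z₂ Z₃, tws Z₁ Z₃ ≤ tws Z₁ Z₂ + tws Z₂ Z₃)
    (hstep : ∀ η : ℝ, 0 < η → η ≤ 1 → ∃ K : ℝ, 0 ≤ K ∧ ∀ Z Z', d Z Z' ≤ ENNReal.ofReal r →
      tws Z Z' ≤ K * (1 + (ℓ Z) ^ (-(1 + η) : ℝ)))
    (hlow : ∀ n : ℕ, 1 ≤ n → (n : ℝ) - C ≤ tws X (Y n)) (κ : ℝ) (hκ : κ < 2) (C' : ℝ) :
    ∃ n : ℕ, 1 ≤ n ∧ ∀ (N : ℕ) (Z : ℕ → M), Z 0 = X → Z N = Y n →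
      (∀ i < N, d (Z i) (Z (i + 1)) ≤ ENNReal.ofReal r) →
      ENNReal.ofReal (κ * (d X (Y n)).toReal + C') < ∑ i ∈ Finset.range N, d (Z i) (Z (i + 1)) := by
  set κ' := max κ 1 with hκ'
  have hκ1 : 1 ≤ κ' := le_max_right _ _
  have hκκ : κ ≤ κ' := le_max_left _ _
  have hκ2 : κ' < 2 := max_lt hκ (by norm_num)
  set C2 := max C' 0 with hC2
  have hC20 : 0 ≤ C2 := le_max_right _ _
  have hC2C : C' ≤ C2 := le_max_left _ _
  set η := (2 - κ') / (2 * κ') with hη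
  have hη0 : 0 < η := by rw [hη]; apply div_pos <;> linarith
  have hη1 : η ≤ 1 := by
    rw [hη, div_le_one (by linarith)]; linarith
  obtain ⟨K, hK0, hK⟩ := hstep η hη0 hη1
  set L : ℝ := (ℓ X) ^ (-(1 + η) : ℝ) with hL
  have hL0 : 0 < L := Real.rpow_pos_of_pos (hpos X) _
  set θ := κ' * (1 + η) / 2 with hθ
  have hθ0 : 0 ≤ θ := by positivity
  have hθ1 : θ < 1 := by
    have : κ' * η = (2 - κ') / 2 := by rw [hη]; field_simp
    rw [hθ]
    nlinarith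
  set L' := L * Real.exp ((1 + η) * C2 / 2) with hL'
  have hL'0 : 0 ≤ L' := by positivity
  obtain ⟨n, hn1, hn⟩ := growth (a := 2 * κ') (b := 2 * C2 + 1) hC (by linarith) (by linarith) hK0
    hL'0 hθ0 hθ1
  refine ⟨n, hn1, ?_⟩
  intro N Z hZ0 hZN hZ1
  by_contra hcon
  push Not at hcon
  have hn1' : (1 : ℝ) ≤ n := by exact_mod_cast hn1
  have hCn : 1 ≤ C * n := by nlinarith
  set x : ℝ := Real.log (C * n) with hx
  have hx0 : 0 ≤ x := Real.log_nonneg hCn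
  set Lam : ℝ := κ' * x + C2 with hLam
  have hLam0 : 0 ≤ Lam := by positivity
  have hD := hXY n hn1
  have hDr : (d X (Y n)).toReal ≤ x := by
    have := ENNReal.toReal_mono ENNReal.ofReal_ne_top hD
    rwa [ENNReal.toReal_ofReal hx0] at this
  have hD0 : 0 ≤ (d X (Y n)).toReal := ENNReal.toReal_nonneg
  have hsum : ∑ i ∈ Finset.range N, d (Z i) (Z (i + 1)) ≤ ENNReal.ofReal Lam := by
    refine hcon.trans (ENNReal.ofReal_le_ofReal ?_)
    rw [hLam]
    nlinarith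
  set δ : ℕ → ℝ := fun i => (d (Z i) (Z (i + 1))).toReal with hδ
  have hfin : ∀ i < N, d (Z i) (Z (i + 1)) ≠ ⊤ := fun i hi =>
    ne_top_of_le_ne_top ENNReal.ofReal_ne_top (hZ1 i hi)
  have hδ0 : ∀ i, i < N → 0 ≤ δ i := fun i _ => ENNReal.toReal_nonneg
  have hδd : ∀ i, i < N → ENNReal.ofReal (δ i) = d (Z i) (Z (i + 1)) := fun i hi =>
    ENNReal.ofReal_toReal (hfin i hi)
  have hδ1 : ∀ i, i < N → δ i ≤ r := fun i hi =>
    ENNReal.toReal_le_of_le_ofReal (by linarith) (hZ1 i hi)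
  have hdsum : ∀ a b, a ≤ b → b ≤ N → 
      d (Z a) (Z b) ≤ ENNReal.ofReal (∑ i ∈ Finset.Ico a b, δ i) := by
    intro a b hab
    induction b, hab using Nat.le_induction with
    | base => intro _; simp [hd0]
    | succ b hab ih =>
      intro hb
      have h1 := ih (by omega)
      have h2 := hdtri (Z a) (Z b) (Z (b + 1))
      have hnn : 0 ≤ ∑ i ∈ Finset.Ico a b, δ i :=
        Finset.sum_nonneg fun i hi => hδ0 i (by have := (Finset.mem_Ico.1 hi).2; omega)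
      rw [Finset.sum_Ico_succ_top hab, ENNReal.ofReal_add hnn (hδ0 b (by omega)), hδd b (by omega)]
      exact h2.trans (by gcongr)
  have hS : ∑ i ∈ Finset.Ico 0 N, δ i ≤ Lam := by
    have h1 : ENNReal.ofReal (∑ i ∈ Finset.Ico 0 N, δ i) ≤ ENNReal.ofReal Lam := by
      rw [← Finset.range_eq_Ico, ENNReal.ofReal_sum_of_nonneg
        (fun i hi => hδ0 i (Finset.mem_range.1 hi))]
      refine le_trans (le_of_eq ?_) hsum
      exact Finset.sum_congr rfl fun i hi => hδd i (Finset.mem_range.1 hi)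
    exact (ENNReal.ofReal_le_ofReal_iff hLam0).1 h1
  have hlog : ∀ a b, a ≤ b → b ≤ N →
      |Real.log (ℓ (Z b)) - Real.log (ℓ (Z a))| ≤ ∑ i ∈ Finset.Ico a b, δ i := by
    intro a b hab hb
    have hnn : 0 ≤ ∑ i ∈ Finset.Ico a b, δ i :=
      Finset.sum_nonneg fun i hi => hδ0 i (by have := (Finset.mem_Ico.1 hi).2; omega)
    exact (ENNReal.ofReal_le_ofReal_iff hnn).1 ((hℓ (Z a) (Z b)).trans (hdsum a b hab hb))
  have hhalf : ∀ i, i ≤ N → Real.log (ℓ X) - Lam / 2 ≤ Real.log (ℓ (Z i)) := by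
    intro i hi
    have h1 := hlog 0 i (Nat.zero_le i) hi
    have h2 := hlog i N hi le_rfl
    have h3 : ∑ j ∈ Finset.Ico 0 i, δ j + ∑ j ∈ Finset.Ico i N, δ j = ∑ j ∈ Finset.Ico 0 N, δ j :=
      Finset.sum_Ico_consecutive _ (Nat.zero_le i) hi
    rw [hZ0] at h1
    rw [hZN, hℓY] at h2
    have h4 := (abs_le.1 h1).1
    have h5 := (abs_le.1 h2).2
    linarith
  have hlen : ∀ i, i ≤ N → (ℓ (Z i)) ^ (-(1 + η) : ℝ) ≤ L' * (C * n) ^ θ := by
    intro i hi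
    have h1 := hhalf i hi
    have hCn0 : 0 < C * (n : ℝ) := by linarith
    rw [hL', hL, Real.rpow_def_of_pos (hpos _), Real.rpow_def_of_pos (hpos X),
      Real.rpow_def_of_pos hCn0, ← Real.exp_add, ← Real.exp_add]
    apply Real.exp_le_exp.2
    have h2 : (1 + η) * (Real.log (ℓ X) - Lam / 2) ≤ (1 + η) * Real.log (ℓ (Z i)) := by gcongr
    have h3 : (1 + η) * (Lam / 2) = (1 + η) * C2 / 2 + x * θ := by rw [hLam, hθ]; ring
    have h4 : Real.log (C * n) = x := rfl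
    rw [h4]
    linarith
  set E := K * (1 + L' * (C * n) ^ θ) with hE
  have hE0 : 0 ≤ E := by
    have : 0 ≤ (C * (n : ℝ)) ^ θ := by positivity
    positivity
  have hmain := coarsen hr δ (fun a b => tws (Z a) (Z b)) N E hE0 hδ0 hδ1
    (fun a b c _ _ _ => htri _ _ _) (fun a b hab hb hs => by
      have h1 : d (Z a) (Z b) ≤ ENNReal.ofReal r :=
        (hdsum a b hab hb).trans (ENNReal.ofReal_le_ofReal hs)
      refine (hK (Z a) (Z b) h1).trans ?_
      rw [hE]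
      have := hlen a (hab.trans hb)
      gcongr) N 0 (Nat.zero_le N) (by omega)
  simp only [hZ0, hZN] at hmain
  have hl := hlow n hn1
  have h7 : (2 * ∑ i ∈ Finset.Ico 0 N, δ i + 1) * E ≤ (2 * κ' * x + (2 * C2 + 1)) * E := by
    apply mul_le_mul_of_nonneg_right _ hE0
    rw [hLam] at hS
    linarith
  linarith

end Pool.Agent.Y117.LS
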