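import Pool.Agent.Y117.LS.EndC

/-!
# The length-spectrum metric is not coarsely a length metric
-/

set_option autoImplicit false

open UpperHalfPlane MeasureTheory Set
open scoped MatrixGroups Manifold ENNReal Topology

namespace Pool.Agent.Y117.LS

open Pool.Agent.LengthSpec

variable {Γ : Subgroup SL(2, ℝ)}

lemma log_max_eq {a b : ℝ} (ha : 0 < a) (hb : 0 < b) :
    Real.log (max (a / b) (b / a)) = |Real.log a - Real.log b| := by
  apply le_antisymm
  · rcases max_choice (a / b) (b / a) with h | h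
    · rw [h, Real.log_div ha.ne' hb.ne']; exact le_abs_self _
    · rw [h, Real.log_div hb.ne' ha.ne', abs_sub_comm]; exact le_abs_self _
  · exact abs_log_sub_le ha hb

lemma dL_eq (X Y : Teich Γ) : dL Γ X Y = ⨆ (g : Γ) (_ : IsSimpleClosed Γ g),
    ENNReal.ofReal |Real.log (lenAt Γ g Y) - Real.log (lenAt Γ g X)| := by
  unfold dL
  refine iSup_congr fun g => iSup_congr fun hg => ?_
  rw [log_max_eq (lenAt_pos hg.pos Y) (lenAt_pos hg.pos X)]

lemma dL_self (X : Teich Γ) : dL Γ X X = 0 := by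
  rw [dL_eq]
  simp

lemma dL_tri (X Y Z : Teich Γ) : dL Γ X Z ≤ dL Γ X Y + dL Γ Y Z := by
  rw [dL_eq X Z]
  refine iSup₂_le fun g hg => ?_
  refine le_trans ?_ (add_le_add (le_dL hg X Y) (le_dL hg Y Z))
  rw [← ENNReal.ofReal_add (abs_nonneg _) (abs_nonneg _)]
  apply ENNReal.ofReal_le_ofReal
  have := abs_sub_le (Real.log (lenAt Γ g Z)) (Real.log (lenAt Γ g Y)) (Real.log (lenAt Γ g X))
  linarith

lemma lenAt_le_of_dL' {r : ℝ} (hr : 0 ≤ r) {g : Γ} (hg : IsSimpleClosed Γ g) {Z Z' : Teich Γ}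
    (h : dL Γ Z Z' ≤ ENNReal.ofReal r) :
    lenAt Γ g Z' ≤ Real.exp r * lenAt Γ g Z ∧ lenAt Γ g Z ≤ Real.exp r * lenAt Γ g Z' := by
  have h1 := (le_dL hg Z Z').trans h
  have h2 : |Real.log (lenAt Γ g Z') - Real.log (lenAt Γ g Z)| ≤ r :=
    (ENNReal.ofReal_le_ofReal_iff hr).mp h1
  have p := lenAt_pos hg.pos Z
  have p' := lenAt_pos hg.pos Z'
  rw [abs_le] at h2
  constructor
  · rw [← Real.log_le_log_iff p' (by positivity), Real.log_mul (Real.exp_pos r).ne' p.ne',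
      Real.log_exp]
    linarith
  · rw [← Real.log_le_log_iff p (by positivity), Real.log_mul (Real.exp_pos r).ne' p'.ne',
      Real.log_exp]
    linarith

theorem coarse_main' (hΓ : IsSurfaceGroup Γ) (hS : ∃ g : Γ, IsSimpleClosed Γ g)
    (κ C' r : ℝ) (hκ : κ < 2) (hr1 : 1 ≤ r) :
    ∃ Y : Teich Γ, dL Γ (cls Γ.subtype (IsMarked.subtype hΓ)) Y < ⊤ ∧
      ∀ (N : ℕ) (Z : ℕ → Teich Γ), Z 0 = cls Γ.subtype (IsMarked.subtype hΓ) → Z N = Y →
        (∀ i < N, dL Γ (Z i) (Z (i + 1)) ≤ ENNReal.ofReal r) →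
        ENNReal.ofReal (κ * (dL Γ (cls Γ.subtype (IsMarked.subtype hΓ)) Y).toReal + C') <
          ∑ i ∈ Finset.range N, dL Γ (Z i) (Z (i + 1)) := by
  have hr0 : 0 ≤ r := by linarith
  obtain ⟨γ, hγ⟩ := hS
  obtain ⟨A', hA'top, hA'⟩ := hΓ.finite_area
  obtain ⟨A, hA0, hA⟩ : ∃ A : ℝ, 0 ≤ A ∧ HasArea Γ (ENNReal.ofReal A) :=
    ⟨A'.toReal, ENNReal.toReal_nonneg, by rwa [ENNReal.ofReal_toReal hA'top]⟩
  have hγ0 := hγ.pos
  -- short simple curves crossing γ
  have hex : ∀ Z : Teich Γ, ∃ β : Γ, IsSimpleClosed Γ β ∧ link (rep Z γ) (rep Z β) ∧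
      len (rep Z β) ≤ 4 * Real.arsinh ((A + 1) / len (rep Z γ)) + 2 * len (rep Z γ) :=
    fun Z => exists_short_simple hΓ hγ hA0 hA (rep_marked Z)
  choose β hβ1 hβ2 hβ3 using hex
  have hnr : ∀ Z : Teich Γ, ∃ m, Nrm γ (rep Z) m := fun Z => exists_nrm (rep_marked Z) hγ0
  choose mm hmm using hnr
  obtain ⟨C₀, r', m, βs, hC₀, hr, hrγ, hrm, hrlen, hrtw⟩ := exists_twisted hΓ hγ
  -- the base structure
  have hρ₀ := IsMarked.subtype hΓ
  obtain ⟨m₀, hm₀⟩ := exists_nrm hρ₀ hγ0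
  set X : Teich Γ := cls Γ.subtype hρ₀ with hX
  set Y : ℕ → Teich Γ := fun n => cls (r' n) (hr n) with hY
  set t : Γ → ℝ := fun b => tn γ Γ.subtype m₀ b with ht
  -- all crossing conditions in the base structure
  have hcross : ∀ Z, link (Γ.subtype γ) (Γ.subtype (β Z)) := fun Z =>
    (link_iff_of_marked (rep_marked Z) hρ₀ hγ0 (hβ1 Z).pos).mp (hβ2 Z)
  have hcross' : ∀ {ρ : Γ →* SL(2, ℝ)} (hρ : IsMarked Γ ρ) (Z), link (ρ γ) (ρ (β Z)) :=
    fun hρ Z => (link_iff_of_marked hρ₀ hρ hγ0 (hβ1 Z).pos).mp (hcross Z)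
  have hlenγX : lenAt Γ γ X = len (γ : SL(2, ℝ)) := rfl
  have hlenγY : ∀ n, lenAt Γ γ (Y n) = len (γ : SL(2, ℝ)) := fun n => by
    show len (r' n γ) = _
    rw [hrγ n]
  set e := Real.exp r with he
  have he1 : 1 ≤ e := Real.one_le_exp hr0
  set D := |t (β X) - t βs| with hD
  set Cy := (4 * Real.arsinh ((A + 1) / len (γ : SL(2, ℝ))) + 2 * len (γ : SL(2, ℝ)) +
    len (γ : SL(2, ℝ))) / len (γ : SL(2, ℝ)) with hCy
  have hCy0 : 0 ≤ Cy := by
    rw [hCy]
    have : 0 ≤ Real.arsinh ((A + 1) / len (γ : SL(2, ℝ))) :=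
      Real.arsinh_nonneg_iff.mpr (by positivity)
    positivity
  set C := C₀ + D + Cy + 2 with hC
  have h2D : 0 ≤ D := abs_nonneg _
  have hC1 : 1 ≤ C := by linarith
  have hXY : ∀ n : ℕ, 1 ≤ n → dL Γ X (Y n) ≤ ENNReal.ofReal (Real.log (C * n)) := by
    intro n hn
    unfold dL
    refine iSup₂_le fun g hg => ENNReal.ofReal_le_ofReal ?_
    have hn' : (1 : ℝ) ≤ n := by exact_mod_cast hn
    have p0 : 0 < len (g : SL(2, ℝ)) := hg.pos
    have p1 : 0 < len (r' n g) := (hr n).len_pos p0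
    obtain ⟨l1, l2⟩ := hrlen n hn g
    have e1 : lenAt Γ g X = len (g : SL(2, ℝ)) := rfl
    have e2 : lenAt Γ g (Y n) = len (r' n g) := rfl
    rw [e1, e2]
    apply Real.log_le_log (by positivity)
    have hCC : C₀ * n ≤ C * n := by
      apply mul_le_mul_of_nonneg_right _ (by positivity)
      linarith
    apply max_le
    · rw [div_le_iff₀ p0]; exact l1.trans (by gcongr)
    · rw [div_le_iff₀ p1]; exact l2.trans (by gcongr)
  obtain ⟨n, hn1, hn⟩ := coarse_end (dL Γ) X Y (lenAt Γ γ) C r hC1 hr1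
    (fun Z Z' => |t (β Z) - t (β Z')|) dL_self dL_tri hXY (fun Z => lenAt_pos hγ0 Z)
    (fun Z Z' => le_dL hγ Z Z') (fun n => by rw [hlenγY, hlenγX])
    (fun Z₁ Z₂ Z₃ => abs_sub_le _ _ _) (fun η hη hη1 => by
      obtain ⟨K, hK0, hK⟩ := step_bound (A := A) (e := e) hη hη1 hA0 he1
      refine ⟨K, hK0, fun Z Z' hZ => ?_⟩
      have c1 := tn_compare hρ₀ (rep_marked Z') hγ0 hm₀ (hmm Z') (hcross Z) (hcross Z')
      have b1 := abs_tn_le (rep_marked Z') hγ0 (hmm Z') (hcross' (rep_marked Z') Z)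
      have b2 := abs_tn_le (rep_marked Z') hγ0 (hmm Z') (hβ2 Z')
      have l1 := lenAt_le_of_dL' hr0 hγ hZ
      have l2 := lenAt_le_of_dL' hr0 (hβ1 Z) hZ
      rw [lenAt_eq, lenAt_eq] at l1 l2
      have pZ : 0 < len (rep Z γ) := (rep_marked Z).len_pos hγ0
      have pZ' : 0 < len (rep Z' γ) := (rep_marked Z').len_pos hγ0
      have hc : len (rep Z' (β Z)) ≤ e * (4 * Real.arsinh ((A + 1) / len (rep Z γ)) +
          2 * len (rep Z γ)) := l2.1.trans (by gcongr; exact hβ3 Z)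
      have sb := hK _ _ _ _ pZ pZ' l1.2 hc (hβ3 Z')
      rw [lenAt_eq]
      refine le_trans c1 (le_trans ?_ sb)
      have := abs_sub (tn γ (rep Z') (mm Z') (β Z)) (tn γ (rep Z') (mm Z') (β Z'))
      linarith) (fun n hn => by
      by_cases hnC : C₀ ≤ n
      · obtain ⟨q1, q2⟩ := hrtw n hnC
        -- compare in the structure r n
        have c1 := tn_compare (hr n) hρ₀ hγ0 (hrm n) hm₀ q1 (hcross' (hr n) (Y n))
        have hlen : len (r' n (β (Y n))) ≤ 4 * Real.arsinh ((A + 1) / len (γ : SL(2, ℝ))) +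
            2 * len (γ : SL(2, ℝ)) := by
          have e1 : len (r' n (β (Y n))) = len (rep (Y n) (β (Y n))) := by
            rw [← lenAt_eq]; rfl
          have e2 : len (rep (Y n) γ) = len (γ : SL(2, ℝ)) := by
            rw [← lenAt_eq]; exact hlenγY n
          rw [e1]
          have := hβ3 (Y n)
          rwa [e2] at this
        have b1 := abs_tn_le (hr n) hγ0 (hrm n) (hcross' (hr n) (Y n))
        have b2 : |tn γ (r' n) m (β (Y n))| ≤ Cy := by
          refine b1.trans ?_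
          rw [hrγ n, hCy]
          gcongr
        have t1 : |tn γ (r' n) m βs - tn γ (r' n) m (β (Y n))| ≥ n - C₀ - Cy := by
          have a1 := abs_le.mp q2
          have a2 := abs_le.mp b2
          have := le_abs_self (tn γ (r' n) m βs - tn γ (r' n) m (β (Y n)))
          linarith
        have t2 : |t βs - t (β (Y n))| ≥ n - C₀ - Cy - 2 := by
          have : |t βs - t (β (Y n))| =
            |tn γ Γ.subtype m₀ βs - tn γ Γ.subtype m₀ (β (Y n))| := rfl
          linarith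
        have t3 := abs_sub_le (t βs) (t (β X)) (t (β (Y n)))
        have t4 : |t βs - t (β X)| = D := by rw [hD, abs_sub_comm]
        show (n : ℝ) - C ≤ |t (β X) - t (β (Y n))|
        linarith
      · have : (n : ℝ) - C ≤ 0 := by
          push Not at hnC
          linarith
        exact this.trans (abs_nonneg _)) κ hκ C'
  exact ⟨Y n, (hXY n hn1).trans_lt ENNReal.ofReal_lt_top, hn⟩

/-- For all `κ < 2`, `C'` and all meshes `r` there is a point `Y` of Teichmüller space at finite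
distance from the base point `X` such that every chain from `X` to `Y` with steps of length at
most `r` has length more than `κ dL(X, Y) + C'`. -/
theorem coarse_main (hΓ : IsSurfaceGroup Γ) (hS : ∃ g : Γ, IsSimpleClosed Γ g)
    (κ C' r : ℝ) (hκ : κ < 2) :
    ∃ X Y : Teich Γ, dL Γ X Y < ⊤ ∧
      ∀ (N : ℕ) (Z : ℕ → Teich Γ), Z 0 = X → Z N = Y →
        (∀ i < N, dL Γ (Z i) (Z (i + 1)) ≤ ENNReal.ofReal r) →
        ENNReal.ofReal (κ * (dL Γ X Y).toReal + C') <
          ∑ i ∈ Finset.range N, dL Γ (Z i) (Z (i + 1)) := by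
  obtain ⟨Y, h1, h2⟩ := coarse_main' hΓ hS κ C' (max r 1) hκ (le_max_right _ _)
  refine ⟨_, Y, h1, fun N Z h0 hN hi => h2 N Z h0 hN fun i hiN => (hi i hiN).trans ?_⟩
  exact ENNReal.ofReal_le_ofReal (le_max_left _ _)

end Pool.Agent.Y117.LS
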