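import Pool.Agent.Y117.LS.Main

/-!
# The length-spectrum metric is not quasi-isometric, with small constants, to a length metric
-/

set_option autoImplicit false

open UpperHalfPlane MeasureTheory Set
open scoped MatrixGroups Manifold ENNReal Topology

namespace Pool.Agent.Y117.LS

open Pool.Agent.LengthSpec

/-- An extended, possibly asymmetric, metric with approximate midpoints: points `x, y` at finite
distance have, for every `ε > 0`, a point `z` with `δ x z, δ z y ≤ δ x y / 2 + ε`. All length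
metrics (path metrics) have this property. -/
structure IsLengthMetric {W : Type*} (δ : W → W → ℝ≥0∞) : Prop where
  self : ∀ x, δ x x = 0
  triangle : ∀ x y z, δ x z ≤ δ x y + δ y z
  midpoint : ∀ x y, δ x y < ⊤ → ∀ ε : ℝ, 0 < ε →
    ∃ z, δ x z ≤ δ x y / 2 + ENNReal.ofReal ε ∧ δ z y ≤ δ x y / 2 + ENNReal.ofReal ε

/-- `f` is a quasi-isometry with multiplicative constants `a`, `b` and additive constant `C`. -/
structure IsQuasiIsometry {M W : Type*} (d : M → M → ℝ≥0∞) (δ : W → W → ℝ≥0∞) (a b C : ℝ)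
    (f : M → W) : Prop where
  upper : ∀ x y, δ (f x) (f y) ≤ ENNReal.ofReal a * d x y + ENNReal.ofReal C
  lower : ∀ x y, d x y ≤ ENNReal.ofReal b * δ (f x) (f y) + ENNReal.ofReal C
  dense : ∀ w, ∃ x, δ (f x) w ≤ ENNReal.ofReal C ∧ δ w (f x) ≤ ENNReal.ofReal C

namespace IsLengthMetric

variable {W : Type*} {δ : W → W → ℝ≥0∞}

lemma mid' (h : IsLengthMetric δ) {x y : W} {D : ℝ} (hD : 0 ≤ D) (hxy : δ x y ≤ ENNReal.ofReal D)
    {ε : ℝ} (hε : 0 < ε) : ∃ z, δ x z ≤ ENNReal.ofReal (D / 2 + ε) ∧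
      δ z y ≤ ENNReal.ofReal (D / 2 + ε) := by
  obtain ⟨z, h1, h2⟩ := h.midpoint x y (hxy.trans_lt ENNReal.ofReal_lt_top) ε hε
  have h3 : δ x y / 2 + ENNReal.ofReal ε ≤ ENNReal.ofReal (D / 2 + ε) := by
    rw [ENNReal.ofReal_add (by positivity) hε.le, ENNReal.ofReal_div_of_pos two_pos]
    have : ENNReal.ofReal 2 = 2 := by simp
    rw [this]
    gcongr
  exact ⟨z, h1.trans h3, h2.trans h3⟩

lemma chain_pow (h : IsLengthMetric δ) (k : ℕ) : ∀ {x y : W} {D : ℝ}, 0 ≤ D →
    δ x y ≤ ENNReal.ofReal D → ∀ ε : ℝ, 0 < ε → ∃ w : ℕ → W, w 0 = x ∧ w (2 ^ k) = y ∧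
      ∀ i < 2 ^ k, δ (w i) (w (i + 1)) ≤ ENNReal.ofReal (D / 2 ^ k + ε) := by
  induction k with
  | zero =>
    intro x y D hD hxy ε hε
    refine ⟨fun i => if i = 0 then x else y, by simp, by simp, ?_⟩
    intro i hi
    have : i = 0 := by simpa using hi
    subst this
    simp only [if_true, zero_add, one_ne_zero, if_false]
    refine hxy.trans (ENNReal.ofReal_le_ofReal ?_)
    simp
    linarith
  | succ k ih =>
    intro x y D hD hxy ε hε
    obtain ⟨z, h1, h2⟩ := h.mid' hD hxy (half_pos hε)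
    obtain ⟨u, u0, u1, hu⟩ := ih (by positivity) h1 (ε / 2) (half_pos hε)
    obtain ⟨v, v0, v1, hv⟩ := ih (by positivity) h2 (ε / 2) (half_pos hε)
    have hp : (1 : ℝ) ≤ 2 ^ k := one_le_pow₀ (by norm_num)
    have hle : (D / 2 + ε / 2) / 2 ^ k + ε / 2 ≤ D / 2 ^ (k + 1) + ε := by
      have h3 : ε / 2 / 2 ^ k ≤ ε / 2 := div_le_self (by positivity) hp
      have h4 : D / 2 / 2 ^ k = D / 2 ^ (k + 1) := by rw [div_div, pow_succ']
      rw [add_div, h4]
      linarith
    refine ⟨fun i => if i ≤ 2 ^ k then u i else v (i - 2 ^ k), by simp [u0], ?_, ?_⟩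
    · have h3 : ¬ 2 ^ (k + 1) ≤ 2 ^ k := by
        have : 0 < 2 ^ k := by positivity
        rw [pow_succ]; omega
      simp only [if_neg h3]
      have : 2 ^ (k + 1) - 2 ^ k = 2 ^ k := by rw [pow_succ]; omega
      rw [this, v1]
    · intro i hi
      refine le_trans ?_ (ENNReal.ofReal_le_ofReal hle)
      rcases lt_trichotomy i (2 ^ k) with h3 | h3 | h3
      · simp only [if_pos h3.le, if_pos (Nat.succ_le_of_lt h3)]
        exact hu i h3
      · simp only [h3, le_refl, if_true, if_neg (show ¬ 2 ^ k + 1 ≤ 2 ^ k by omega), u1,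
          Nat.add_sub_cancel_left]
        have := hv 0 (by positivity)
        rwa [v0] at this
      · simp only [if_neg (not_le.2 h3), if_neg (show ¬ i + 1 ≤ 2 ^ k by omega)]
        have h4 : i + 1 - 2 ^ k = (i - 2 ^ k) + 1 := by omega
        rw [h4]
        refine hv _ ?_
        rw [pow_succ] at hi
        omega

/-- chains of small mesh -/
lemma chain (h : IsLengthMetric δ) {x y : W} {D : ℝ} (hD : 0 ≤ D)
    (hxy : δ x y ≤ ENNReal.ofReal D) : ∃ (N : ℕ) (w : ℕ → W), w 0 = x ∧ w N = y ∧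
      (∀ i < N, δ (w i) (w (i + 1)) ≤ 1) ∧
      ∑ i ∈ Finset.range N, (δ (w i) (w (i + 1))).toReal ≤ D + 1 := by
  obtain ⟨k, hk⟩ := pow_unbounded_of_one_lt (D + 1) (by norm_num : (1 : ℝ) < 2)
  have hp : (0 : ℝ) < 2 ^ k := by positivity
  obtain ⟨w, w0, w1, hw⟩ := h.chain_pow k hD hxy (1 / 2 ^ k) (by positivity)
  refine ⟨2 ^ k, w, w0, w1, ?_, ?_⟩
  · intro i hi
    refine (hw i hi).trans ?_
    rw [← ENNReal.ofReal_one]
    apply ENNReal.ofReal_le_ofReal
    rw [← add_div, div_le_one hp]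
    exact hk.le
  · have h1 : ∀ i ∈ Finset.range (2 ^ k), (δ (w i) (w (i + 1))).toReal ≤ (D + 1) / 2 ^ k := by
      intro i hi
      have h2 := hw i (Finset.mem_range.1 hi)
      rw [← add_div] at h2
      exact ENNReal.toReal_le_of_le_ofReal (by positivity) h2
    refine (Finset.sum_le_sum h1).trans ?_
    rw [Finset.sum_const, Finset.card_range, nsmul_eq_mul]
    push_cast
    rw [mul_div_cancel₀ _ hp.ne']

/-- chains with few steps of size at most `s` -/
lemma chain_blocks (h : IsLengthMetric δ) {x y : W} {D s : ℝ} (hD : 0 ≤ D)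
    (hxy : δ x y ≤ ENNReal.ofReal D) (hs : 1 < s) : ∃ (m : ℕ) (w : ℕ → W), w 0 = x ∧ w m = y ∧
      (∀ i < m, δ (w i) (w (i + 1)) ≤ ENNReal.ofReal s) ∧ (m : ℝ) ≤ (D + 1) / (s - 1) + 1 := by
  obtain ⟨N, w, w0, w1, hw, hsum⟩ := h.chain hD hxy
  have hfin : ∀ i < N, δ (w i) (w (i + 1)) ≠ ⊤ := fun i hi =>
    ne_top_of_le_ne_top ENNReal.one_ne_top (hw i hi)
  obtain ⟨m, c, c0, c1, hc, hm⟩ := blocks zero_le_one hs (fun i => (δ (w i) (w (i + 1))).toReal) N
    (fun i _ => ENNReal.toReal_nonneg) (fun i hi => by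
      have := ENNReal.toReal_mono ENNReal.one_ne_top (hw i hi)
      simpa using this) N 0 (Nat.zero_le N) (by omega)
  have hpart : ∀ a b, a ≤ b → b ≤ N → δ (w a) (w b) ≤
      ENNReal.ofReal (∑ i ∈ Finset.Ico a b, (δ (w i) (w (i + 1))).toReal) := by
    intro a b hab
    induction b, hab using Nat.le_induction with
    | base => intro _; simp [h.self]
    | succ b hab ih =>
      intro hb
      have h1 := ih (by omega)
      have h2 := h.triangle (w a) (w b) (w (b + 1))
      rw [Finset.sum_Ico_succ_top hab, ENNReal.ofReal_add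
        (Finset.sum_nonneg fun i hi => ENNReal.toReal_nonneg) ENNReal.toReal_nonneg,
        ENNReal.ofReal_toReal (hfin b (by omega))]
      exact h2.trans (by gcongr)
  refine ⟨m, fun j => w (c j), by simp [c0, w0], by simp [c1, w1], ?_, ?_⟩
  · intro j hj
    obtain ⟨h1, h2, h3⟩ := hc j hj
    exact (hpart _ _ h1 h2).trans (ENNReal.ofReal_le_ofReal h3)
  · refine hm.trans ?_
    rw [← Finset.range_eq_Ico]
    have : 0 < s - 1 := by linarith
    gcongr

end IsLengthMetric

variable {Γ : Subgroup SL(2, ℝ)}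

theorem not_quasiIsometry (hΓ : IsSurfaceGroup Γ) (hS : ∃ g : Γ, IsSimpleClosed Γ g)
    {W : Type*} {δ : W → W → ℝ≥0∞} (hδ : IsLengthMetric δ) {a b C : ℝ} (ha : 0 ≤ a) (hb : 0 ≤ b)
    (hC : 0 ≤ C) (hab : a * b < 2) (f : Teich Γ → W) : ¬ IsQuasiIsometry (dL Γ) δ a b C f := by
  intro hf
  set κ := (a * b + 2) / 2 with hκ
  have hab0 : 0 ≤ a * b := mul_nonneg ha hb
  have hκ0 : 0 ≤ κ := by positivity
  have hκ2 : κ < 2 := by rw [hκ]; linarith
  have hκab : 0 < κ - a * b := by rw [hκ]; linarith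
  set s := 2 + (κ + 2 * (a * b) * C + a * C) / (κ - a * b) with hs
  have hnum : 0 ≤ (κ + 2 * (a * b) * C + a * C) / (κ - a * b) := by positivity
  have hs2 : 2 ≤ s := by linarith
  have hs1 : 0 < s - 1 := by linarith
  set r := b * (s + 2 * C) + C with hr
  have hr0 : 0 ≤ r := by positivity
  have hslope : a * r / (s - 1) ≤ κ := by
    rw [div_le_iff₀ hs1]
    have h1 : (κ - a * b) * s = 2 * (κ - a * b) + (κ + 2 * (a * b) * C + a * C) := by
      rw [hs]; field_simp
    have h2 : a * r = a * b * s + 2 * (a * b) * C + a * C := by rw [hr]; ring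
    nlinarith
  set C' := (C + 1) / (s - 1) * r + r with hC'
  obtain ⟨X, Y, hXY, hlong⟩ := coarse_main hΓ hS κ C' r hκ2
  set D := (dL Γ X Y).toReal with hD
  have hD0 : 0 ≤ D := ENNReal.toReal_nonneg
  have hfXY : δ (f X) (f Y) ≤ ENNReal.ofReal (a * D + C) := by
    rw [ENNReal.ofReal_add (by positivity) hC, ENNReal.ofReal_mul ha, hD,
      ENNReal.ofReal_toReal hXY.ne]
    exact hf.upper X Y
  obtain ⟨m, w, w0, wm, hw, hm⟩ := hδ.chain_blocks (by positivity) hfXY (by linarith : 1 < s)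
  choose g hg1 hg2 using hf.dense
  set Z : ℕ → Teich Γ := fun i => if i = 0 then X else if i = m then Y else g (w i) with hZ
  by_cases hm0 : m = 0
  · -- the chain is trivial
    subst hm0
    have hfe : f X = f Y := by rw [← w0, wm]
    have h1 := hlong 1 (fun i => if i = 0 then X else Y) (by simp) (by simp) (by
      intro i hi
      have : i = 0 := by omega
      subst this
      simp only [if_true, zero_add, one_ne_zero, if_false]
      refine (hf.lower X Y).trans ?_
      rw [hfe, hδ.self, mul_zero, zero_add]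
      apply ENNReal.ofReal_le_ofReal
      rw [hr]
      have : 0 ≤ b * (s + 2 * C) := by positivity
      linarith)
    simp only [Finset.range_one, Finset.sum_singleton, if_true, zero_add, one_ne_zero,
      if_false] at h1
    have h2 : dL Γ X Y ≤ ENNReal.ofReal C := by
      refine (hf.lower X Y).trans ?_
      rw [hfe, hδ.self, mul_zero, zero_add]
    have h3 : ENNReal.ofReal C ≤ ENNReal.ofReal (κ * D + C') := by
      apply ENNReal.ofReal_le_ofReal
      have h4 : C ≤ r := by
        rw [hr]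
        have : 0 ≤ b * (s + 2 * C) := by positivity
        linarith
      have h5 : 0 ≤ (C + 1) / (s - 1) * r := by positivity
      have h6 : 0 ≤ κ * D := by positivity
      linarith
    exact absurd (h1.trans_le (h2.trans h3)) (lt_irrefl _)
  have hZw : ∀ i, i ≤ m → δ (f (Z i)) (w i) ≤ ENNReal.ofReal C ∧
      δ (w i) (f (Z i)) ≤ ENNReal.ofReal C := by
    intro i hi
    by_cases h0 : i = 0
    · subst h0
      simp only [hZ, if_true, w0, hδ.self]
      exact ⟨zero_le, zero_le⟩
    · by_cases h1 : i = m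
      · subst h1
        simp only [hZ, if_neg h0, if_true, wm, hδ.self]
        exact ⟨zero_le, zero_le⟩
      · simp only [hZ, if_neg h0, if_neg h1]
        exact ⟨hg1 _, hg2 _⟩
  have hZstep : ∀ i < m, dL Γ (Z i) (Z (i + 1)) ≤ ENNReal.ofReal r := by
    intro i hi
    have h1 := (hZw i hi.le).1
    have h2 := (hZw (i + 1) hi).2
    have h3 := hw i hi
    have h4 : δ (f (Z i)) (f (Z (i + 1))) ≤ ENNReal.ofReal (s + 2 * C) := by
      refine (hδ.triangle _ (w i) _).trans ?_
      refine (add_le_add h1 (hδ.triangle _ (w (i + 1)) _)).trans ?_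
      refine (add_le_add le_rfl (add_le_add h3 h2)).trans ?_
      rw [← ENNReal.ofReal_add (by linarith) hC, ← ENNReal.ofReal_add hC (by linarith)]
      apply ENNReal.ofReal_le_ofReal
      linarith
    refine (hf.lower _ _).trans ?_
    rw [hr, ENNReal.ofReal_add (by positivity) hC, ENNReal.ofReal_mul hb]
    gcongr
  have h1 := hlong m Z (by simp [hZ]) (by simp [hZ, hm0]) hZstep
  have h2 : ∑ i ∈ Finset.range m, dL Γ (Z i) (Z (i + 1)) ≤ ENNReal.ofReal (m * r) := by
    refine (Finset.sum_le_sum fun i hi => hZstep i (Finset.mem_range.1 hi)).trans ?_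
    rw [Finset.sum_const, Finset.card_range, nsmul_eq_mul, ENNReal.ofReal_mul (by positivity),
      ENNReal.ofReal_natCast]
  have h3 : (m : ℝ) * r ≤ κ * D + C' := by
    have h4 : (m : ℝ) * r ≤ ((a * D + C + 1) / (s - 1) + 1) * r := by gcongr
    have h5 : ((a * D + C + 1) / (s - 1) + 1) * r = (a * r / (s - 1)) * D + C' := by
      rw [hC']; field_simp; ring
    have h6 : (a * r / (s - 1)) * D ≤ κ * D := by gcongr
    linarith
  exact absurd (h1.trans_le (h2.trans (ENNReal.ofReal_le_ofReal h3))) (lt_irrefl _)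

/-- no Finsler metric is close to the length-spectrum metric -/
theorem not_finsler_close (hΓ : IsSurfaceGroup Γ) (hS : ∃ g : Γ, IsSimpleClosed Γ g)
    {a b C : ℝ} (ha : 0 ≤ a) (hb : 0 ≤ b) (hC : 0 ≤ C) (hab : a * b < 2)
    (E : Type*) [NormedAddCommGroup E] [NormedSpace ℝ E] [TopologicalSpace (Teich Γ)]
    [ChartedSpace E (Teich Γ)] [IsManifold 𝓘(ℝ, E) 1 (Teich Γ)] {δ : Teich Γ → Teich Γ → ℝ≥0∞}
    (hδ : IsFinsler E δ) (hup : ∀ X Y, δ X Y ≤ ENNReal.ofReal a * dL Γ X Y + ENNReal.ofReal C)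
    (hlow : ∀ X Y, dL Γ X Y ≤ ENNReal.ofReal b * δ X Y + ENNReal.ofReal C) : False := by
  set κ := (a * b + 2) / 2 with hκ
  have hab0 : 0 ≤ a * b := mul_nonneg ha hb
  have hκ0 : 0 ≤ κ := by positivity
  have hκ2 : κ < 2 := by rw [hκ]; linarith
  have hκab : 0 < κ - a * b := by rw [hκ]; linarith
  set s := 1 + (a * C) / (κ - a * b) with hs
  have hnum : 0 ≤ (a * C) / (κ - a * b) := by positivity
  have hs1 : 1 ≤ s := by linarith
  have hs0 : 0 < s := by linarith
  set r := b * s + C with hr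
  have hr0 : 0 ≤ r := by positivity
  have hslope : a * r / s ≤ κ := by
    rw [div_le_iff₀ hs0]
    have h1 : (κ - a * b) * s = (κ - a * b) + a * C := by
      rw [hs]; field_simp
    have h2 : a * r = a * b * s + a * C := by rw [hr]; ring
    nlinarith
  set C' := (C + 1) / s * r + 2 * r with hC'
  obtain ⟨X, Y, hXY, hlong⟩ := coarse_main hΓ hS κ C' r hκ2
  set D := (dL Γ X Y).toReal with hD
  have hD0 : 0 ≤ D := ENNReal.toReal_nonneg
  have hδXY : δ X Y ≤ ENNReal.ofReal (a * D + C) := by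
    rw [ENNReal.ofReal_add (by positivity) hC, ENNReal.ofReal_mul ha, hD,
      ENNReal.ofReal_toReal hXY.ne]
    exact hup X Y
  set m := ⌈(a * D + C + 1) / s⌉₊ + 1 with hm
  have hm1 : (a * D + C + 1) / s ≤ m := by
    have := Nat.le_ceil ((a * D + C + 1) / s)
    rw [hm]; push_cast; linarith
  have hm2 : (m : ℝ) ≤ (a * D + C + 1) / s + 2 := by
    have := Nat.ceil_lt_add_one (show 0 ≤ (a * D + C + 1) / s by positivity)
    rw [hm]; push_cast; linarith
  have hm0 : 0 < m := Nat.succ_pos _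
  obtain ⟨Z, Z0, Zm, hZ⟩ := finsler_chain E hδ X Y (hδXY.trans_lt ENNReal.ofReal_lt_top).ne m hm0
  have hZs : ∀ i < m, δ (Z i) (Z (i + 1)) ≤ ENNReal.ofReal s := by
    intro i hi
    refine (hZ i hi).trans ?_
    have hm0' : (0 : ℝ) < m := by exact_mod_cast hm0
    have h1 : δ X Y + 1 ≤ ENNReal.ofReal (a * D + C + 1) := by
      rw [ENNReal.ofReal_add (by positivity) zero_le_one, ENNReal.ofReal_one]
      gcongr
    calc (δ X Y + 1) / m ≤ ENNReal.ofReal (a * D + C + 1) / ENNReal.ofReal m := by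
          rw [ENNReal.ofReal_natCast]
          gcongr
      _ = ENNReal.ofReal ((a * D + C + 1) / m) := (ENNReal.ofReal_div_of_pos hm0').symm
      _ ≤ ENNReal.ofReal s := by
          apply ENNReal.ofReal_le_ofReal
          rw [div_le_iff₀ hm0']
          rw [div_le_iff₀ hs0] at hm1
          linarith
  have hZstep : ∀ i < m, dL Γ (Z i) (Z (i + 1)) ≤ ENNReal.ofReal r := by
    intro i hi
    refine (hlow _ _).trans ?_
    rw [hr, ENNReal.ofReal_add (by positivity) hC, ENNReal.ofReal_mul hb]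
    have := hZs i hi
    gcongr
  have h1 := hlong m Z Z0 Zm hZstep
  have h2 : ∑ i ∈ Finset.range m, dL Γ (Z i) (Z (i + 1)) ≤ ENNReal.ofReal (m * r) := by
    refine (Finset.sum_le_sum fun i hi => hZstep i (Finset.mem_range.1 hi)).trans ?_
    rw [Finset.sum_const, Finset.card_range, nsmul_eq_mul, ENNReal.ofReal_mul (by positivity),
      ENNReal.ofReal_natCast]
  have h3 : (m : ℝ) * r ≤ κ * D + C' := by
    have h4 : (m : ℝ) * r ≤ ((a * D + C + 1) / s + 2) * r := by gcongr
    have h5 : ((a * D + C + 1) / s + 2) * r = (a * r / s) * D + C' := by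
      rw [hC']; field_simp; ring
    have h6 : (a * r / s) * D ≤ κ * D := by gcongr
    linarith
  exact absurd (h1.trans_le (h2.trans (ENNReal.ofReal_le_ofReal h3))) (lt_irrefl _)

end Pool.Agent.Y117.LS
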